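import Mathlib
import Pool.Agent.H25.ValdRN

set_option autoImplicit false

namespace Pool.Agent.Results.MP_3028b5_gt.No

open Set Topology

/-- A Valdivia compact space that is fragmented by a lower semicontinuous metric contains no copy of
`[0, ω₂]`. -/
theorem result (K : Type) [TopologicalSpace K] [CompactSpace K] [T2Space K]
    (hRN : ∃ d : K → K → ℝ, (∀ x y, 0 ≤ d x y) ∧ (∀ x y, d x y = 0 ↔ x = y) ∧
      (∀ x y, d x y = d y x) ∧ (∀ x y z, d x z ≤ d x y + d y z) ∧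
      LowerSemicontinuous (fun q : K × K => d q.1 q.2) ∧
      ∀ L : Set K, L.Nonempty → ∀ ε > 0, ∃ U, IsOpen U ∧ (U ∩ L).Nonempty ∧
        ∀ x ∈ U ∩ L, ∀ y ∈ U ∩ L, d x y < ε)
    (hV : ∃ (Γ : Type) (h : K → Γ → ℝ), IsEmbedding h ∧ Dense (h ⁻¹' {x | {γ | x γ ≠ 0}.Countable})) :
    ¬ ∃ f : Iic (Cardinal.aleph.{0} 2).ord → K, IsEmbedding f := by
  obtain ⟨d, h0, h1, -, -, h2, h3⟩ := hRN
  obtain ⟨Γ, φ, h4, h5⟩ := hV
  exact fun ⟨f, hf⟩ => Pool.Agent.H25.ValdRN.main d h2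
    (fun x y h => (h0 x y).lt_of_ne' (mt (h1 x y).1 h)) h3 φ h4 h5 f hf.continuous hf.injective

end Pool.Agent.Results.MP_3028b5_gt.No
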